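import Mathlib

/-!
# Transcendence of `π` (Lindemann 1882)
-/

namespace Pool.Agent.Lib70.PiTr

open Polynomial Filter Topology
open scoped Nat

/-- integrality of `a^m * g(β)` when `β` is a root of an integer polynomial with leading
coefficient `a`. -/
theorem isIntegral_pow_mul_aeval {L : Type*} [Field L] [CharZero L] (f g : ℤ[X]) (m : ℕ)
    (hg : g.natDegree ≤ m) (β : L) (hβ : aeval β f = 0) :
    IsIntegral ℤ (((f.leadingCoeff : ℤ) : L) ^ m * aeval β g) := by
  have h1 : IsIntegral ℤ (((f.leadingCoeff : ℤ) : L) * β) := by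
    have := isIntegral_leadingCoeff_smul f β hβ
    simpa [zsmul_eq_mul] using this
  rw [aeval_eq_sum_range' (Nat.lt_succ_of_le hg) β, Finset.mul_sum]
  refine IsIntegral.sum _ fun i hi => ?_
  have hi' : i ≤ m := Nat.lt_succ_iff.mp (Finset.mem_range.mp hi)
  have : ((f.leadingCoeff : ℤ) : L) ^ m * (g.coeff i • β ^ i) =
      (((f.leadingCoeff ^ (m - i) * g.coeff i : ℤ)) : L) *
        (((f.leadingCoeff : ℤ) : L) * β) ^ i := by
    obtain ⟨k, rfl⟩ := Nat.exists_eq_add_of_le hi'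
    simp only [Nat.add_sub_cancel_left, zsmul_eq_mul, Int.cast_mul, Int.cast_pow]
    ring
  rw [this]
  exact (isIntegral_algebraMap (R := ℤ) (A := L)).mul (h1.pow i)

/-- a nonzero algebraic number is a root of an integer polynomial with nonzero constant
coefficient. -/
theorem exists_int_poly {L : Type*} [Field L] [Algebra ℚ L] (β : L) (hβ : IsAlgebraic ℚ β)
    (h0 : β ≠ 0) : ∃ f : ℤ[X], f.eval 0 ≠ 0 ∧ aeval β f = 0 := by
  have hβ' : IsAlgebraic ℤ β := (IsFractionRing.isAlgebraic_iff ℤ ℚ L).mpr hβ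
  obtain ⟨q, hq, hq0⟩ := hβ'.exists_nonzero_coeff_and_aeval_eq_zero
    (mem_nonZeroDivisors_of_ne_zero h0)
  exact ⟨q, by rwa [← coeff_zero_eq_eval_zero], hq0⟩

theorem sum_powerset_reindex {A : Type*} [Field A] [DecidableEq A] (R : Finset A)
    (σ : A ≃+* A) (hR : ∀ x ∈ R, σ x ∈ R) (hR' : ∀ x ∈ R, σ.symm x ∈ R)
    {B : Type*} [AddCommMonoid B] (h : A → B) :
    ∑ T ∈ R.powerset, h (σ (∑ x ∈ T, x)) = ∑ T ∈ R.powerset, h (∑ x ∈ T, x) := by
  refine Finset.sum_nbij' (fun T => T.image σ) (fun T => T.image σ.symm) ?_ ?_ ?_ ?_ ?_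
  · intro T hT
    rw [Finset.mem_powerset] at hT ⊢
    intro x hx
    obtain ⟨y, hy, rfl⟩ := Finset.mem_image.mp hx
    exact hR y (hT hy)
  · intro T hT
    rw [Finset.mem_powerset] at hT ⊢
    intro x hx
    obtain ⟨y, hy, rfl⟩ := Finset.mem_image.mp hx
    exact hR' y (hT hy)
  · intro T _
    ext x
    simp [Finset.mem_image]
  · intro T _
    ext x
    simp [Finset.mem_image]
  · intro T _
    congr 1
    rw [map_sum, Finset.sum_image fun x _ y _ hxy => σ.injective hxy]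

/-- an algebraic integer in `A` fixed by all automorphisms is an integer -/
theorem exists_int_of_fixed {A : Type*} [Field A] [Algebra ℚ A] [IsGalois ℚ A] (Y : A)
    (hY : IsIntegral ℤ Y) (hfix : ∀ σ : A ≃ₐ[ℚ] A, σ Y = Y) : ∃ y : ℤ, Y = (y : A) := by
  have h1 : Y ∈ (⊥ : IntermediateField ℚ A) := (InfiniteGalois.mem_bot_iff_fixed Y).mpr hfix
  obtain ⟨q, hq⟩ := IntermediateField.mem_bot.mp h1
  have h2 : IsIntegral ℤ q := by
    rw [← hq] at hY
    exact (isIntegral_algebraMap_iff (algebraMap ℚ A).injective).mp hY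
  obtain ⟨y, hy⟩ := IsIntegrallyClosed.isIntegral_iff.mp h2
  refine ⟨y, ?_⟩
  rw [← hq, ← hy]
  simp

theorem tendsto_aux (a : ℝ) (d : ℕ) (c N : ℝ) :
    Tendsto (fun p : ℕ => N * (|a| + 1) ^ (p * d) * (|c| ^ p / (p - 1)!)) atTop (𝓝 0) := by
  have h1 : Tendsto (fun p : ℕ => N * ((|a| + 1) ^ d * |c|) *
      (((|a| + 1) ^ d * |c|) ^ p / p !)) atTop (𝓝 (N * ((|a| + 1) ^ d * |c|) * 0)) :=
    (FloorSemiring.tendsto_pow_div_factorial_atTop _).const_mul _
  rw [mul_zero] at h1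
  rw [← tendsto_add_atTop_iff_nat 1]
  refine h1.congr fun p => ?_
  simp only [Nat.add_sub_cancel]
  rw [pow_mul', pow_succ, pow_succ, mul_pow]
  ring

theorem main (A : Type) [Field A] [Algebra ℚ A] [IsGalois ℚ A] (ι : A →+* ℂ) (z : A)
    (hz : 1 + Complex.exp (ι z) = 0) : False := by
  classical
  have : CharZero A := algebraRat.charZero A
  have : Algebra.IsAlgebraic ℚ A := inferInstance
  have hzalg : IsAlgebraic ℚ z := Algebra.IsAlgebraic.isAlgebraic z
  set P := minpoly ℚ z with hP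
  have hP0 : P ≠ 0 := minpoly.ne_zero hzalg.isIntegral
  set R : Finset A := (P.aroots A).toFinset with hR
  have memR : ∀ x : A, x ∈ R ↔ aeval x P = 0 := by
    intro x
    rw [hR, Multiset.mem_toFinset, mem_aroots]
    exact ⟨fun h => h.2, fun h => ⟨hP0, h⟩⟩
  have hzR : z ∈ R := (memR z).mpr (minpoly.aeval ℚ z)
  have hRσ : ∀ σ : A ≃ₐ[ℚ] A, ∀ x ∈ R, σ x ∈ R := by
    intro σ x hx
    rw [memR] at hx ⊢
    have := aeval_algHom_apply σ.toAlgHom x P
    change aeval (σ x) P = σ (aeval x P) at this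
    rw [this, hx, map_zero]
  -- the sum of exponentials
  have hexp : ∑ T ∈ R.powerset, Complex.exp (ι (∑ x ∈ T, x)) = 0 := by
    have h1 : ∏ x ∈ R, (1 + Complex.exp (ι x)) = 0 := Finset.prod_eq_zero hzR hz
    rw [Finset.prod_one_add] at h1
    rw [← h1]
    refine Finset.sum_congr rfl fun T _ => ?_
    rw [map_sum, Complex.exp_sum]
  set T0 := R.powerset.filter (fun T => ∑ x ∈ T, x = 0) with hT0
  set T1 := R.powerset.filter (fun T => ¬ (∑ x ∈ T, x = 0)) with hT1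
  have hsplit : ∀ h : A → ℂ, ∑ T ∈ R.powerset, h (∑ x ∈ T, x) =
      T0.card * h 0 + ∑ T ∈ T1, h (∑ x ∈ T, x) := by
    intro h
    rw [← Finset.sum_filter_add_sum_filter_not R.powerset (fun T => ∑ x ∈ T, x = 0)]
    congr 1
    rw [Finset.sum_congr rfl (g := fun _ => h 0), Finset.sum_const, nsmul_eq_mul]
    intro T hT
    rw [(Finset.mem_filter.mp hT).2]
  have hk : 0 < T0.card := by
    refine Finset.card_pos.mpr ⟨∅, ?_⟩
    simp [hT0]
  -- the polynomial
  have hpoly : ∀ T : Finset A, ∃ f : ℤ[X], f.eval 0 ≠ 0 ∧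
      ((∑ x ∈ T, x) ≠ 0 → aeval (∑ x ∈ T, x) f = 0) := by
    intro T
    by_cases h : ∑ x ∈ T, x = 0
    · exact ⟨1, by simp, fun h' => absurd h h'⟩
    · obtain ⟨f, hf, hf'⟩ := exists_int_poly (∑ x ∈ T, x) (Algebra.IsAlgebraic.isAlgebraic _) h
      exact ⟨f, hf, fun _ => hf'⟩
  choose fT hfT0 hfT using hpoly
  set f : ℤ[X] := ∏ T ∈ T1, fT T with hf
  have hf0 : f.eval 0 ≠ 0 := by
    rw [hf, eval_prod]
    exact Finset.prod_ne_zero_iff.mpr fun T _ => hfT0 T
  have hfne : f ≠ 0 := by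
    rintro h
    rw [h] at hf0
    simp at hf0
  have hfroot : ∀ T ∈ T1, aeval (∑ x ∈ T, x) f = 0 := by
    intro T hT
    rw [hf, map_prod]
    exact Finset.prod_eq_zero hT (hfT T (Finset.mem_filter.mp hT).2)
  have hfroot' : ∀ T ∈ T1, ι (∑ x ∈ T, x) ∈ f.aroots ℂ := by
    intro T hT
    rw [mem_aroots]
    refine ⟨hfne, ?_⟩
    have h1 := hfroot T hT
    have h2 := aeval_algHom_apply (ι.toIntAlgHom) (∑ x ∈ T, x) f
    have h3 : aeval (ι (∑ x ∈ T, x)) f = ι (aeval (∑ x ∈ T, x) f) := h2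
    rw [h3, h1, map_zero]
  obtain ⟨c, hc⟩ := LindemannWeierstrass.exp_polynomial_approx f hf0
  set a := f.leadingCoeff with ha
  have ha0 : a ≠ 0 := leadingCoeff_ne_zero.mpr hfne
  set d := f.natDegree with hd
  -- the invariance of the sums
  have hinv : ∀ g : ℤ[X], ∀ σ : A ≃ₐ[ℚ] A,
      σ (∑ T ∈ T1, aeval (∑ x ∈ T, x) g) = ∑ T ∈ T1, aeval (∑ x ∈ T, x) g := by
    intro g σ
    have h1 := sum_powerset_reindex R (σ : A ≃+* A) (hRσ σ) (hRσ σ.symm)
      (fun y : A => if y = 0 then (0 : A) else aeval y g)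
    have h2 : ∀ h : A → A, ∑ T ∈ R.powerset, (if h (∑ x ∈ T, x) = 0 then (0 : A) else
        aeval (h (∑ x ∈ T, x)) g) =
        ∑ T ∈ R.powerset.filter (fun T => ¬ (h (∑ x ∈ T, x) = 0)), aeval (h (∑ x ∈ T, x)) g := by
      intro h
      rw [Finset.sum_filter]
      refine Finset.sum_congr rfl fun T _ => ?_
      by_cases hh : h (∑ x ∈ T, x) = 0 <;> simp [hh]
    have h3 := h2 id
    have h4 := h2 σ
    simp only [id] at h3
    have h5 : R.powerset.filter (fun T => ¬ (σ (∑ x ∈ T, x) = 0)) = T1 := by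
      rw [hT1]
      refine Finset.filter_congr fun T _ => ?_
      rw [map_eq_zero_iff σ σ.injective]
    rw [h5] at h4
    rw [map_sum]
    calc ∑ T ∈ T1, σ (aeval (∑ x ∈ T, x) g) = ∑ T ∈ T1, aeval (σ (∑ x ∈ T, x)) g := by
          refine Finset.sum_congr rfl fun T _ => ?_
          exact (aeval_algHom_apply ((σ : A →+* A).toIntAlgHom) (∑ x ∈ T, x) g).symm
      _ = _ := by
          rw [← h4]
          rw [← h3]
          exact h1
  have hint : ∀ g : ℤ[X], ∀ m : ℕ, g.natDegree ≤ m →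
      ∃ y : ℤ, (a : A) ^ m * ∑ T ∈ T1, aeval (∑ x ∈ T, x) g = (y : A) := by
    intro g m hg
    apply exists_int_of_fixed
    · rw [Finset.mul_sum]
      exact IsIntegral.sum _ fun T hT => isIntegral_pow_mul_aeval f g m hg _ (hfroot T hT)
    · intro σ
      rw [map_mul, hinv g σ, map_pow, map_intCast]
  -- the final estimate
  set N : ℝ := (T1.card : ℝ) with hN
  have hlim := tendsto_aux (a : ℝ) d c N
  have hev : ∀ᶠ p : ℕ in atTop,
      N * (|(a : ℝ)| + 1) ^ (p * d) * (|c| ^ p / (p - 1)!) < 1 :=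
    hlim.eventually (gt_mem_nhds one_pos)
  obtain ⟨p0, hp0⟩ := eventually_atTop.mp hev
  obtain ⟨p, hpge, hp⟩ := Nat.exists_infinite_primes
    (p0 + (eval 0 f).natAbs + T0.card + a.natAbs + 1)
  have hplt := hp0 p (by omega)
  obtain ⟨n, hn, g, hgdeg, happ⟩ := hc p (by omega) hp
  obtain ⟨y, hy⟩ := hint g (p * d) (hgdeg.trans (Nat.sub_le _ _))
  have hyC : (a : ℂ) ^ (p * d) * ∑ T ∈ T1, aeval (ι (∑ x ∈ T, x)) g = (y : ℂ) := by
    have := congrArg ι hy
    rw [map_mul, map_pow, map_intCast, map_sum, map_intCast] at this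
    rw [← this]
    congr 1
    refine Finset.sum_congr rfl fun T _ => ?_
    exact (aeval_algHom_apply (ι.toIntAlgHom) (∑ x ∈ T, x) g)
  set Z : ℤ := a ^ (p * d) * n * T0.card + p * y with hZ
  have hZ0 : Z ≠ 0 := by
    intro h
    have h1 : (p : ℤ) ∣ a ^ (p * d) * n * T0.card := by
      refine ⟨-y, ?_⟩
      rw [hZ] at h
      linear_combination h
    have hpp : Prime (p : ℤ) := Nat.prime_iff_prime_int.mp hp
    rcases hpp.dvd_or_dvd h1 with h2 | h2
    · rcases hpp.dvd_or_dvd h2 with h3 | h3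
      · have h4 := hpp.dvd_of_dvd_pow h3
        have h5 := Int.natCast_dvd.mp h4
        have h6 := Nat.le_of_dvd (Int.natAbs_pos.mpr ha0) h5
        omega
      · exact hn h3
    · have h5 := Int.natCast_dvd.mp h2
      have h6 := Nat.le_of_dvd (by simpa using hk) h5
      simp at h6
      omega
  have hZC : (Z : ℂ) = - ((a : ℂ) ^ (p * d) *
      ∑ T ∈ T1, (n • Complex.exp (ι (∑ x ∈ T, x)) - p • aeval (ι (∑ x ∈ T, x)) g)) := by
    have h1 := hsplit (fun x => Complex.exp (ι x))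
    simp only [map_zero, Complex.exp_zero, mul_one] at h1
    rw [hexp] at h1
    have h2 : ∑ T ∈ T1, (n • Complex.exp (ι (∑ x ∈ T, x)) - p • aeval (ι (∑ x ∈ T, x)) g) =
        n * (∑ T ∈ T1, Complex.exp (ι (∑ x ∈ T, x))) -
          p * ∑ T ∈ T1, aeval (ι (∑ x ∈ T, x)) g := by
      rw [Finset.sum_sub_distrib, Finset.mul_sum, Finset.mul_sum]
      simp only [zsmul_eq_mul, nsmul_eq_mul]
    rw [h2, hZ]
    push_cast
    rw [← hyC]
    linear_combination -((a : ℂ) ^ (p * d) * n * h1)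
  have hle : ‖(Z : ℂ)‖ ≤ N * (|(a : ℝ)| + 1) ^ (p * d) * (|c| ^ p / (p - 1)!) := by
    rw [hZC, norm_neg, norm_mul, norm_pow, mul_comm N, mul_assoc]
    have h1 : ‖(a : ℂ)‖ = |(a : ℝ)| := by simp
    rw [h1]
    have h2 : ‖∑ T ∈ T1, (n • Complex.exp (ι (∑ x ∈ T, x)) -
        p • aeval (ι (∑ x ∈ T, x)) g)‖ ≤ N * (|c| ^ p / (p - 1)!) := by
      refine (norm_sum_le _ _).trans ?_
      rw [hN, ← nsmul_eq_mul, ← Finset.sum_const]
      refine Finset.sum_le_sum fun T hT => ?_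
      refine (happ (hfroot' T hT)).trans ?_
      gcongr ?_ / _
      rw [← abs_pow]
      exact le_abs_self _
    exact mul_le_mul (pow_le_pow_left₀ (abs_nonneg _) (by linarith) _) h2 (norm_nonneg _)
      (by positivity)
  have h1 : (1 : ℝ) ≤ ‖(Z : ℂ)‖ := by
    rw [Complex.norm_intCast]
    exact_mod_cast Int.one_le_abs hZ0
  linarith

/-- **Lindemann**: `π` is transcendental. -/
theorem transcendental_pi : Transcendental ℚ Real.pi := by
  intro h
  have h1 : IsAlgebraic ℚ ((Real.pi : ℂ)) := h.algebraMap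
  have hI : IsAlgebraic ℚ Complex.I := by
    refine ⟨X ^ 2 + 1, ?_, by simp⟩
    intro h
    have := congrArg (eval 0) h
    simp at this
  have h2 : IsAlgebraic ℚ ((Real.pi : ℂ) * Complex.I) := h1.mul hI
  let _ : Algebra ℚ (algebraicClosure ℚ ℂ) := (algebraicClosure ℚ ℂ).algebra'
  have h3 : IsAlgClosure ℚ (algebraicClosure ℚ ℂ) := algebraicClosure.isAlgClosure ℚ ℂ
  have h4 : Normal ℚ (algebraicClosure ℚ ℂ) := IsAlgClosure.normal ℚ _
  have h5 : IsGalois ℚ (algebraicClosure ℚ ℂ) := IsGalois.mk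
  exact main (algebraicClosure ℚ ℂ) (algebraMap (algebraicClosure ℚ ℂ) ℂ)
    ⟨(Real.pi : ℂ) * Complex.I, (mem_algebraicClosure_iff).mpr h2⟩ (by
      change 1 + Complex.exp ((Real.pi : ℂ) * Complex.I) = 0
      rw [Complex.exp_pi_mul_I]
      ring)

end Pool.Agent.Lib70.PiTr
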